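import Pool.Agent.Helper45.XN.Hensel

/-!
# Roots in balls of the `p`-adic integers and Lipschitz bounds for polynomials
-/

set_option autoImplicit false

namespace Pool.Agent.Helper45.XN

open MvPolynomial Finset

/-- An isometric self-map of a compact space is surjective. -/
theorem surjective_of_isometry {α : Type*} [MetricSpace α] [CompactSpace α] (f : α → α) (hf : Isometry f) :
    Function.Surjective f := by
  intro y
  by_contra hy
  have hy' : y ∉ Set.range f := fun ⟨x, hx⟩ => hy ⟨x, hx⟩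
  have hcl : IsClosed (Set.range f) := (isCompact_range hf.continuous).isClosed
  obtain ⟨δ, hδ, hball⟩ := Metric.isOpen_iff.1 hcl.isOpen_compl y hy'
  have h1 : ∀ x, δ ≤ dist y (f x) := by
    intro x
    by_contra h
    push Not at h
    exact hball (Metric.mem_ball'.2 h) ⟨x, rfl⟩
  have hit : ∀ n, Isometry (f^[n]) := fun n => by
    induction n with
    | zero => exact isometry_id
    | succ n ih => exact ih.comp hf
  have h2 : ∀ m n : ℕ, m < n → δ ≤ dist (f^[m] y) (f^[n] y) := by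
    intro m n hmn
    obtain ⟨k, rfl⟩ := Nat.exists_eq_add_of_lt hmn
    have h3 : f^[m + k + 1] y = f^[m] (f (f^[k] y)) := by
      rw [add_assoc, Function.iterate_add_apply, Function.iterate_succ_apply']
    rw [h3, (hit m).dist_eq]
    exact h1 _
  obtain ⟨z, -, φ, hφ, hlim⟩ := isCompact_univ.tendsto_subseq (x := fun n => f^[n] y) fun n => Set.mem_univ _
  have h4 := hlim.cauchySeq
  rw [Metric.cauchySeq_iff] at h4
  obtain ⟨N, hN⟩ := h4 δ hδ
  have h5 := hN N le_rfl (N + 1) (Nat.le_succ N)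
  exact absurd (h2 _ _ (hφ (Nat.lt_succ_self N))) (not_le.2 h5)

variable {p : ℕ} [Fact p.Prime]

/-- A function which is isometric on a ball and small at the centre has a root in the ball. -/
theorem exists_root (f : ℤ_[p] → ℤ_[p]) (a : ℤ_[p]) (r : ℝ) (hr : 0 ≤ r)
    (hf : ∀ z w, ‖z - a‖ ≤ r → ‖w - a‖ ≤ r → ‖f z - f w‖ = ‖z - w‖) (ha : ‖f a‖ ≤ r) :
    ∃ z, ‖z - a‖ ≤ r ∧ f z = 0 ∧ ∀ w, ‖w - a‖ ≤ r → f w = 0 → w = z := by
  have hz0 : ‖a - a‖ ≤ r := by simpa using hr
  have hsmall : ∀ z, ‖z - a‖ ≤ r → ‖f z‖ ≤ r := by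
    intro z hz
    have h1 : f z = (f z - f a) + f a := by ring
    rw [h1]
    refine (IsUltrametricDist.norm_add_le_max _ _).trans (max_le ?_ ha)
    rw [hf z a hz hz0]
    exact hz
  have hc : CompactSpace (Metric.closedBall a r) :=
    isCompact_iff_compactSpace.1 (Metric.isClosed_closedBall.isCompact)
  have hmem : ∀ z : Metric.closedBall a r, a + f z ∈ Metric.closedBall a r := by
    rintro ⟨z, hz⟩
    rw [mem_closedBall_iff_norm] at hz ⊢
    rw [add_sub_cancel_left]
    exact hsmall z hz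
  let g : Metric.closedBall a r → Metric.closedBall a r := fun z => ⟨a + f z, hmem z⟩
  have hg : Isometry g := by
    refine Isometry.of_dist_eq fun z w => ?_
    rw [Subtype.dist_eq, Subtype.dist_eq, dist_eq_norm, dist_eq_norm]
    have h1 : ((g z : ℤ_[p]) - (g w : ℤ_[p])) = f z - f w := by
      simp only [g]
      ring
    rw [h1]
    exact hf z w (mem_closedBall_iff_norm.1 z.2) (mem_closedBall_iff_norm.1 w.2)
  obtain ⟨⟨z, hz⟩, hgz⟩ := surjective_of_isometry g hg ⟨a, Metric.mem_closedBall_self hr⟩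
  rw [mem_closedBall_iff_norm] at hz
  have hz1 : f z = 0 := by
    have h1 : a + f z = a := congrArg Subtype.val hgz
    simpa using h1
  refine ⟨z, hz, hz1, fun w hw hw0 => ?_⟩
  have h1 := hf w z hw hz
  rw [hw0, hz1, sub_zero, norm_zero] at h1
  exact sub_eq_zero.1 (norm_eq_zero.1 h1.symm)

/-- The form with an approximate slope. -/
theorem exists_root_of_slope (f : ℤ_[p] → ℤ_[p]) (a c : ℤ_[p]) (r : ℝ) (hr : 0 ≤ r) (hc : ‖c‖ = 1)
    (hf : ∀ z w, ‖z - a‖ ≤ r → ‖w - a‖ ≤ r → ‖f z - f w - c * (z - w)‖ ≤ (p : ℝ)⁻¹ * ‖z - w‖)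
    (ha : ‖f a‖ ≤ r) : ∃ z, ‖z - a‖ ≤ r ∧ f z = 0 ∧ ∀ w, ‖w - a‖ ≤ r → f w = 0 → w = z := by
  refine exists_root f a r hr (fun z w hz hw => ?_) ha
  by_cases hzw : z = w
  · subst hzw
    simp
  have hp1 : (p : ℝ)⁻¹ < 1 := by
    have : (1 : ℝ) < p := by exact_mod_cast (Fact.out : p.Prime).one_lt
    exact inv_lt_one_of_one_lt₀ this
  have h0 : 0 < ‖z - w‖ := norm_pos_iff.2 (sub_ne_zero.2 hzw)
  have h1 : ‖f z - f w - c * (z - w)‖ < ‖c * (z - w)‖ := by
    rw [norm_mul, hc, one_mul]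
    refine (hf z w hz hw).trans_lt ?_
    nlinarith
  have h2 : ‖f z - f w‖ = ‖(f z - f w - c * (z - w)) + c * (z - w)‖ := by
    congr 1
    ring
  rw [h2, IsUltrametricDist.norm_add_eq_max_of_norm_ne_norm h1.ne, max_eq_right h1.le, norm_mul, hc, one_mul]

/-- The ideal of the elements of norm at most `r`. -/
def normIdeal (r : ℝ) (hr : 0 ≤ r) : Ideal ℤ_[p] where
  carrier := {x | ‖x‖ ≤ r}
  zero_mem' := by simpa using hr
  add_mem' := fun {x y} hx hy => (IsUltrametricDist.norm_add_le_max x y).trans (max_le hx hy)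
  smul_mem' := fun c x hx => by
    change ‖c * x‖ ≤ r
    rw [norm_mul]
    calc ‖c‖ * ‖x‖ ≤ 1 * r := mul_le_mul (PadicInt.norm_le_one _) hx (norm_nonneg _) zero_le_one
      _ = r := one_mul r

theorem mem_normIdeal (r : ℝ) (hr : 0 ≤ r) (x : ℤ_[p]) : x ∈ normIdeal r hr ↔ ‖x‖ ≤ r := Iff.rfl

variable {ι : Type*} [Fintype ι]

/-- Polynomials do not increase distances. -/
theorem norm_eval_sub_le (f : MvPolynomial ι ℤ_[p]) (x y : ι → ℤ_[p]) :
    ‖eval x f - eval y f‖ ≤ ‖x - y‖ := by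
  obtain ⟨c, hc, -⟩ := sub_eq_sum ⊤ x f x y (fun i => Submodule.mem_top) (fun i => Submodule.mem_top)
  rw [hc]
  refine IsUltrametricDist.norm_sum_le_of_forall_le_of_nonneg (norm_nonneg _) fun j _ => ?_
  rw [norm_mul]
  calc ‖c j‖ * ‖x j - y j‖ ≤ 1 * ‖x - y‖ :=
        mul_le_mul (PadicInt.norm_le_one _) (norm_le_pi_norm (x - y) j) (norm_nonneg _) zero_le_one
    _ = ‖x - y‖ := one_mul _

/-- Taylor's formula with a quadratic error. -/
theorem norm_taylor_le (f : MvPolynomial ι ℤ_[p]) (x h : ι → ℤ_[p]) :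
    ‖eval (x + h) f - eval x f - ∑ j, eval x (pderiv j f) * h j‖ ≤ ‖h‖ ^ 2 := by
  obtain ⟨c, hc, hc'⟩ := sub_eq_sum (normIdeal ‖h‖ (norm_nonneg _)) x f (x + h) x
    (fun i => by
      rw [mem_normIdeal, Pi.add_apply, add_sub_cancel_left]
      exact norm_le_pi_norm h i)
    (fun i => by
      rw [sub_self]
      exact Submodule.zero_mem _)
  have h1 : eval (x + h) f - eval x f - ∑ j, eval x (pderiv j f) * h j =
      ∑ j, (c j - eval x (pderiv j f)) * h j := by
    rw [hc, ← sum_sub_distrib]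
    refine sum_congr rfl fun j _ => ?_
    rw [Pi.add_apply, add_sub_cancel_left]
    ring
  rw [h1]
  refine IsUltrametricDist.norm_sum_le_of_forall_le_of_nonneg (by positivity) fun j _ => ?_
  rw [norm_mul, sq]
  exact mul_le_mul (hc' j) (norm_le_pi_norm h j) (norm_nonneg _) (norm_nonneg _)

/-- The derivative does not increase distances. -/
theorem norm_deriv_sub_le (f : MvPolynomial ι ℤ_[p]) (x h v : ι → ℤ_[p]) :
    ‖∑ j, eval (x + h) (pderiv j f) * v j - ∑ j, eval x (pderiv j f) * v j‖ ≤ ‖h‖ * ‖v‖ := by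
  rw [← sum_sub_distrib]
  refine IsUltrametricDist.norm_sum_le_of_forall_le_of_nonneg (by positivity) fun j _ => ?_
  rw [← sub_mul, norm_mul]
  refine mul_le_mul ?_ (norm_le_pi_norm v j) (norm_nonneg _) (norm_nonneg _)
  refine (norm_eval_sub_le _ _ _).trans ?_
  rw [add_sub_cancel_left]

end Pool.Agent.Helper45.XN
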