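import Pool.Agent.Helper45.XN.Hensel
import Pool.Agent.Helper24.CQ.AlgJac

/-!
# Algebraic solutions near an algebraic point
-/

set_option autoImplicit false

namespace Pool.Agent.Helper45.XN

open MvPolynomial Finset

variable {p : ℕ} [Fact p.Prime]

/-- A polynomial with integral coefficients comes from the integers. -/
theorem exists_lift {ι : Type*} (f : MvPolynomial ι ℚ_[p]) (hf : ∀ m, ‖coeff m f‖ ≤ 1) :
    ∃ g : MvPolynomial ι ℤ_[p], map (PadicInt.Coe.ringHom (p := p)) g = f := by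
  have h1 : f ∈ Set.range (map (PadicInt.Coe.ringHom (p := p)) : MvPolynomial ι ℤ_[p] →+* _) := by
    rw [mem_range_map_iff_coeffs_subset]
    intro x hx
    obtain ⟨m, -, rfl⟩ := mem_coeffs_iff.1 hx
    exact ⟨⟨_, hf m⟩, rfl⟩
  exact h1

/-- Determinants of congruent matrices. -/
theorem norm_det_eq_one {ι : Type*} [Fintype ι] [DecidableEq ι] (A B : Matrix ι ι ℤ_[p])
    (h : ∀ i j, ‖A i j - B i j‖ < 1) (hA : IsUnit A.det) : IsUnit B.det := by
  have h1 : ∀ x y : ℤ_[p], ‖x - y‖ < 1 → PadicInt.toZMod x = PadicInt.toZMod y := by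
    intro x y hxy
    rw [← sub_eq_zero, ← map_sub, ← RingHom.mem_ker, PadicInt.ker_toZMod, PadicInt.maximalIdeal_eq_span_p,
      mem_span_iff]
    exact hxy
  have h2 : (PadicInt.toZMod (p := p)).mapMatrix A = (PadicInt.toZMod (p := p)).mapMatrix B := by
    ext i j
    exact h1 _ _ (h i j)
  have h3 : PadicInt.toZMod (p := p) A.det = PadicInt.toZMod (p := p) B.det := by
    rw [RingHom.map_det, RingHom.map_det, h2]
  by_contra hB
  have h4 : B.det ∈ IsLocalRing.maximalIdeal ℤ_[p] := hB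
  rw [← PadicInt.ker_toZMod, RingHom.mem_ker, ← h3, ← RingHom.mem_ker, PadicInt.ker_toZMod] at h4
  exact h4 hA

/-- Near an algebraic point with invertible Jacobian there are algebraic solutions of the neighbouring systems. -/
theorem exists_near {L : Type*} [Field L] [NumberField L] (φ : L →+* ℚ_[p]) {ι : Type*} [Fintype ι]
    [DecidableEq ι] (G : ι → MvPolynomial ι L) (hG : ∀ i m, ‖φ (coeff m (G i))‖ ≤ 1) (a : ι → L)
    (ha : ∀ i, ‖φ (a i)‖ ≤ 1) (t : ι → L) (hat : ∀ i, ‖φ (eval a (G i) - t i)‖ < 1)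
    (hJ : ‖φ (Matrix.of fun i j => eval a (pderiv j (G i))).det‖ = 1) :
    ∃ (b : ι → ℚ_[p]) (K : IntermediateField ℚ ℚ_[p]), FiniteDimensional ℚ K ∧ (∀ x, φ x ∈ K) ∧ (∀ i, b i ∈ K) ∧
      (∀ i, eval₂ φ b (G i) = φ (t i)) ∧ (∀ i, ‖b i - φ (a i)‖ < 1) ∧
      ∀ r : ℝ, (∀ i, ‖φ (eval a (G i) - t i)‖ ≤ r) → ∀ i, ‖b i - φ (a i)‖ ≤ r := by
  classical
  set ψ : ℤ_[p] →+* ℚ_[p] := PadicInt.Coe.ringHom (p := p) with hψ
  have hψi : Function.Injective ψ := Subtype.val_injective
  have hψn : ∀ x : ℤ_[p], ‖ψ x‖ = ‖x‖ := fun x => rfl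
  -- the integral data
  choose G' hG' using fun i => exists_lift (map φ (G i)) (fun m => by rw [coeff_map]; exact hG i m)
  let a' : ι → ℤ_[p] := fun i => ⟨φ (a i), ha i⟩
  have ha' : ∀ i, ψ (a' i) = φ (a i) := fun i => rfl
  have hev : ∀ (b : ι → ℤ_[p]) (i : ι), ψ (eval b (G' i)) = eval₂ φ (fun j => ψ (b j)) (G i) := by
    intro b i
    have h1 : ψ (eval b (G' i)) = eval (fun j => ψ (b j)) (map ψ (G' i)) := by
      rw [eval_map]
      have := eval₂_comp_left ψ (RingHom.id ℤ_[p]) b (G' i)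
      simpa [Function.comp_def, eval₂_id] using this
    rw [h1, hG', eval_map]
  have hevd : ∀ (b : ι → ℤ_[p]) (i j : ι),
      ψ (eval b (pderiv j (G' i))) = eval₂ φ (fun j => ψ (b j)) (pderiv j (G i)) := by
    intro b i j
    have h1 : ψ (eval b (pderiv j (G' i))) = eval (fun j => ψ (b j)) (map ψ (pderiv j (G' i))) := by
      rw [eval_map]
      have := eval₂_comp_left ψ (RingHom.id ℤ_[p]) b (pderiv j (G' i))
      simpa [Function.comp_def, eval₂_id] using this
    rw [h1, ← pderiv_map, hG', pderiv_map, eval_map]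
  have heva : ∀ f : MvPolynomial ι L, eval₂ φ (fun j => ψ (a' j)) f = φ (eval a f) := by
    intro f
    have := eval₂_comp_left φ (RingHom.id L) a f
    simpa [Function.comp_def, eval₂_id, ha'] using this.symm
  have ht : ∀ i, ‖φ (t i)‖ ≤ 1 := by
    intro i
    have h1 : φ (t i) = ψ (eval a' (G' i)) - φ (eval a (G i) - t i) := by
      rw [hev, heva, map_sub]
      ring
    rw [h1]
    rw [sub_eq_add_neg]
    refine (IsUltrametricDist.norm_add_le_max _ _).trans (max_le ?_ ?_)
    · rw [hψn]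
      exact PadicInt.norm_le_one _
    · rw [norm_neg]
      exact (hat i).le
  let t' : ι → ℤ_[p] := fun i => ⟨φ (t i), ht i⟩
  have ht' : ∀ i, ψ (t' i) = φ (t i) := fun i => rfl
  let F : ι → MvPolynomial ι ℤ_[p] := fun i => G' i - C (t' i)
  have hF : ∀ i, ‖eval a' (F i)‖ = ‖φ (eval a (G i) - t i)‖ := by
    intro i
    rw [← hψn]
    congr 1
    simp only [F]
    rw [map_sub, map_sub, hev, heva, eval_C, ht', map_sub]
  have hdF : ∀ i j, pderiv j (F i) = pderiv j (G' i) := by
    intro i j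
    simp only [F]
    rw [map_sub, pderiv_C, sub_zero]
  have hJa : ψ (Matrix.of fun i j => eval a' (pderiv j (F i))).det =
      φ (Matrix.of fun i j => eval a (pderiv j (G i))).det := by
    rw [RingHom.map_det, RingHom.map_det]
    congr 1
    ext i j
    simp only [RingHom.mapMatrix_apply, Matrix.map_apply, Matrix.of_apply]
    rw [hdF, hevd, heva]
  have hJu : IsUnit (Matrix.of fun i j => eval a' (pderiv j (F i))).det := by
    rw [PadicInt.isUnit_iff, ← hψn, hJa]
    exact hJ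
  obtain ⟨b, hb, hba, hbr, -⟩ := hensel F a' (fun i => by rw [hF]; exact hat i) hJu
  have hbG : ∀ i, eval₂ φ (fun j => ψ (b j)) (G i) = φ (t i) := by
    intro i
    have h1 := congrArg ψ (hb i)
    simp only [F] at h1
    rw [map_sub, map_sub, hev, eval_C, ht', map_zero, sub_eq_zero] at h1
    exact h1
  -- algebraicity
  let _ : Algebra L ℚ_[p] := φ.toAlgebra
  have halgmap : algebraMap L ℚ_[p] = φ := rfl
  have hJb : IsUnit (Matrix.of fun i j => eval b (pderiv j (F i))).det := by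
    refine norm_det_eq_one _ _ (fun i j => ?_) hJu
    rw [Matrix.of_apply, Matrix.of_apply]
    obtain ⟨c, hc, -⟩ := sub_eq_sum ⊤ a' (pderiv j (F i)) a' b (fun i => Submodule.mem_top)
      (fun i => Submodule.mem_top)
    rw [hc, ← mem_span_iff]
    refine Ideal.sum_mem _ fun k _ => Ideal.mul_mem_left _ _ ?_
    rw [mem_span_iff, ← norm_neg, neg_sub]
    exact hba k
  have halg : ∀ i, IsAlgebraic L (ψ (b i)) := by
    intro i
    refine Pool.Agent.Helper24.CQ.alg_of_jac G (fun j => ψ (b j)) (fun i => ⟨t i, hbG i⟩) ?_ i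
    have h1 : ψ (Matrix.of fun i j => eval b (pderiv j (F i))).det =
        (Matrix.of fun i j => aeval (fun j => ψ (b j)) (pderiv j (G i))).det := by
      rw [RingHom.map_det]
      congr 1
      ext i j
      simp only [RingHom.mapMatrix_apply, Matrix.map_apply, Matrix.of_apply]
      rw [hdF, hevd, aeval_def, halgmap]
    rw [← h1, map_ne_zero_iff ψ hψi]
    exact hJb.ne_zero
  have hLQ : Algebra.IsAlgebraic ℚ L := inferInstance
  have hcomp : IsScalarTower ℚ L ℚ_[p] := IsScalarTower.of_algebraMap_eq fun x => by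
    rw [eq_ratCast, eq_ratCast, map_ratCast]
  have halgQ : ∀ i, IsAlgebraic ℚ (ψ (b i)) := fun i => (halg i).restrictScalars ℚ
  let K1 : IntermediateField ℚ ℚ_[p] := (IsScalarTower.toAlgHom ℚ L ℚ_[p]).fieldRange
  have hK1 : FiniteDimensional ℚ K1 :=
    (IsScalarTower.toAlgHom ℚ L ℚ_[p]).equivFieldRange.toLinearEquiv.finiteDimensional
  let K2 : IntermediateField ℚ ℚ_[p] := IntermediateField.adjoin ℚ (Set.range fun i => ψ (b i))
  have hK2 : FiniteDimensional ℚ K2 := by
    have : Finite (Set.range fun i => ψ (b i)) := Set.finite_range _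
    refine IntermediateField.finiteDimensional_adjoin fun x hx => ?_
    obtain ⟨i, rfl⟩ := hx
    exact (halgQ i).isIntegral
  refine ⟨fun i => ψ (b i), K1 ⊔ K2, IntermediateField.finiteDimensional_sup K1 K2, fun x => ?_, fun i => ?_,
    hbG, fun i => ?_, fun r hr i => ?_⟩
  · exact (le_sup_left : K1 ≤ K1 ⊔ K2) ⟨x, rfl⟩
  · exact (le_sup_right : K2 ≤ K1 ⊔ K2) (IntermediateField.subset_adjoin ℚ _ ⟨i, rfl⟩)
  · have := hba i
    rwa [← hψn, map_sub, ha'] at this
  · have h0 : 0 ≤ r := (norm_nonneg _).trans (hr i)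
    have h1 := (hbr i).trans ((pi_norm_le_iff_of_nonneg h0).2 fun j => by
      change ‖eval a' (F j)‖ ≤ r
      rw [hF]
      exact hr j)
    rwa [← hψn, map_sub, ha'] at h1

end Pool.Agent.Helper45.XN
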