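import Mathlib

/-!
# Hensel's lemma for square systems over the `p`-adic integers
-/

set_option autoImplicit false

namespace Pool.Agent.Helper45.XN

open MvPolynomial Finset

/-- The difference of two values of a polynomial, first order. -/
theorem sub_eq_sum {R ι : Type*} [CommRing R] [Fintype ι] (I : Ideal R) (a : ι → R) (f : MvPolynomial ι R)
    (x y : ι → R) (hx : ∀ i, x i - a i ∈ I) (hy : ∀ i, y i - a i ∈ I) :
    ∃ c : ι → R, eval x f - eval y f = ∑ j, c j * (x j - y j) ∧ ∀ j, c j - eval a (pderiv j f) ∈ I := by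
  classical
  have hval : ∀ (z : ι → R), (∀ i, z i - a i ∈ I) → ∀ g : MvPolynomial ι R, eval z g - eval a g ∈ I := by
    intro z hz g
    rw [← Ideal.Quotient.eq_zero_iff_mem, map_sub, sub_eq_zero]
    have h1 : ∀ w : ι → R, Ideal.Quotient.mk I (eval w g) =
        eval₂ (Ideal.Quotient.mk I) (fun i => Ideal.Quotient.mk I (w i)) g := by
      intro w
      have := MvPolynomial.eval₂_comp_left (Ideal.Quotient.mk I) (RingHom.id R) w g
      simpa [eval₂_id, Function.comp_def] using this
    rw [h1, h1]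
    congr 1
    funext i
    rw [← sub_eq_zero, ← map_sub, Ideal.Quotient.eq_zero_iff_mem]
    exact hz i
  induction f using MvPolynomial.induction_on with
  | C r => exact ⟨0, by simp, by simp⟩
  | add f g hf hg =>
    obtain ⟨c, hc, hc'⟩ := hf
    obtain ⟨d, hd, hd'⟩ := hg
    refine ⟨fun j => c j + d j, ?_, fun j => ?_⟩
    · rw [map_add, map_add, add_sub_add_comm, hc, hd, ← sum_add_distrib]
      exact sum_congr rfl fun j _ => by ring
    · rw [map_add, map_add, add_sub_add_comm]
      exact I.add_mem (hc' j) (hd' j)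
  | mul_X f i hf =>
    obtain ⟨c, hc, hc'⟩ := hf
    refine ⟨fun j => c j * x i + (if j = i then eval y f else 0), ?_, fun j => ?_⟩
    · have h1 : ∑ j, (c j * x i + if j = i then eval y f else 0) * (x j - y j) =
          (∑ j, c j * (x j - y j)) * x i + eval y f * (x i - y i) := by
        rw [sum_mul]
        simp only [add_mul, sum_add_distrib, ite_mul, zero_mul, sum_ite_eq', mem_univ, if_true]
        congr 1
        exact sum_congr rfl fun j _ => by ring
      rw [h1, ← hc, map_mul, map_mul, eval_X, eval_X]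
      ring
    · have h1 := I.mul_mem_left (eval a (pderiv j f)) (hx i)
      have h2 := I.mul_mem_right (x i) (hc' j)
      rw [Derivation.leibniz, pderiv_X, smul_eq_mul, smul_eq_mul, map_add, map_mul, map_mul, eval_X]
      beta_reduce
      by_cases h : j = i
      · subst h
        rw [if_pos rfl, Pi.single_eq_same, map_one, mul_one]
        have h3 := hval y hy f
        have h4 : c j * x j + eval y f - (eval a f + a j * eval a (pderiv j f)) =
            (c j - eval a (pderiv j f)) * x j + eval a (pderiv j f) * (x j - a j) +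
              (eval y f - eval a f) := by ring
        rw [h4]
        exact I.add_mem (I.add_mem h2 h1) h3
      · rw [if_neg h, Pi.single_eq_of_ne (Ne.symm h), map_zero, mul_zero, zero_add, add_zero]
        have h4 : c j * x i - a i * eval a (pderiv j f) =
            (c j - eval a (pderiv j f)) * x i + eval a (pderiv j f) * (x i - a i) := by ring
        rw [h4]
        exact I.add_mem h2 h1

variable {p : ℕ} [Fact p.Prime] {ι : Type*} [Fintype ι]

theorem mem_span_iff (x : ℤ_[p]) : x ∈ Ideal.span {(p : ℤ_[p])} ↔ ‖x‖ < 1 := by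
  rw [Ideal.mem_span_singleton, PadicInt.norm_lt_one_iff_dvd]

theorem norm_lt_one_iff_le (x : ℤ_[p]) : ‖x‖ < 1 ↔ ‖x‖ ≤ (p : ℝ)⁻¹ := by
  rw [← mem_span_iff]
  have := PadicInt.norm_le_pow_iff_mem_span_pow x 1
  rw [pow_one] at this
  rw [← this]
  norm_num [zpow_neg]

theorem norm_mulVec_le (M : Matrix ι ι ℤ_[p]) (v : ι → ℤ_[p]) : ‖M.mulVec v‖ ≤ ‖v‖ := by
  refine (pi_norm_le_iff_of_nonneg (norm_nonneg _)).2 fun i => ?_
  rw [Matrix.mulVec, dotProduct]
  refine IsUltrametricDist.norm_sum_le_of_forall_le_of_nonneg (norm_nonneg _) fun j _ => ?_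
  rw [norm_mul]
  calc ‖M i j‖ * ‖v j‖ ≤ 1 * ‖v‖ :=
        mul_le_mul (PadicInt.norm_le_one _) (norm_le_pi_norm v j) (norm_nonneg _) zero_le_one
    _ = ‖v‖ := one_mul _

/-- Differences of the values of a square system near `a`. -/
theorem norm_newton_le [DecidableEq ι] (F : ι → MvPolynomial ι ℤ_[p]) (a : ι → ℤ_[p])
    (N : Matrix ι ι ℤ_[p]) (hN : N * (Matrix.of fun i j => eval a (pderiv j (F i))) = 1)
    (x y : ι → ℤ_[p]) (hx : ∀ i, ‖x i - a i‖ < 1) (hy : ∀ i, ‖y i - a i‖ < 1) :
    ‖(x - N.mulVec fun i => eval x (F i)) - (y - N.mulVec fun i => eval y (F i))‖ ≤ (p : ℝ)⁻¹ * ‖x - y‖ := by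
  have h1 : ∀ i, ∃ c : ι → ℤ_[p], eval x (F i) - eval y (F i) = ∑ j, c j * (x j - y j) ∧
      ∀ j, c j - eval a (pderiv j (F i)) ∈ Ideal.span {(p : ℤ_[p])} := fun i =>
    sub_eq_sum _ a (F i) x y (fun j => (mem_span_iff _).2 (hx j)) (fun j => (mem_span_iff _).2 (hy j))
  choose c hc hc' using h1
  have h2 : (x - N.mulVec fun i => eval x (F i)) - (y - N.mulVec fun i => eval y (F i)) =
      N.mulVec ((Matrix.of fun i j => eval a (pderiv j (F i)) - c i j).mulVec (x - y)) := by
    have h3 : (fun i => eval x (F i)) - (fun i => eval y (F i)) = (Matrix.of c).mulVec (x - y) := by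
      funext i
      rw [Pi.sub_apply, hc]
      rfl
    have h4 : (Matrix.of fun i j => eval a (pderiv j (F i)) - c i j) =
        (Matrix.of fun i j => eval a (pderiv j (F i))) - Matrix.of c := rfl
    rw [h4, Matrix.sub_mulVec, Matrix.mulVec_sub, Matrix.mulVec_mulVec, hN, Matrix.one_mulVec, ← h3,
      Matrix.mulVec_sub]
    abel
  rw [h2]
  refine (norm_mulVec_le _ _).trans ?_
  refine (pi_norm_le_iff_of_nonneg (by positivity)).2 fun i => ?_
  rw [Matrix.mulVec, dotProduct]
  refine IsUltrametricDist.norm_sum_le_of_forall_le_of_nonneg (by positivity) fun j _ => ?_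
  rw [norm_mul, Matrix.of_apply, ← norm_neg, neg_sub]
  exact mul_le_mul ((norm_lt_one_iff_le _).1 ((mem_span_iff _).1 (hc' i j))) (norm_le_pi_norm (x - y) j)
    (norm_nonneg _) (by positivity)

/-- Hensel's lemma. -/
theorem hensel [DecidableEq ι] (F : ι → MvPolynomial ι ℤ_[p]) (a : ι → ℤ_[p]) (hF : ∀ i, ‖eval a (F i)‖ < 1)
    (hJ : IsUnit (Matrix.of fun i j => eval a (pderiv j (F i))).det) :
    ∃ b : ι → ℤ_[p], (∀ i, eval b (F i) = 0) ∧ (∀ i, ‖b i - a i‖ < 1) ∧
      (∀ i, ‖b i - a i‖ ≤ ‖fun i => eval a (F i)‖) ∧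
      ∀ b' : ι → ℤ_[p], (∀ i, eval b' (F i) = 0) → (∀ i, ‖b' i - a i‖ < 1) → b' = b := by
  classical
  set J : Matrix ι ι ℤ_[p] := Matrix.of fun i j => eval a (pderiv j (F i)) with hJdef
  have hJ' : IsUnit J := (Matrix.isUnit_iff_isUnit_det J).2 hJ
  obtain ⟨N, hN⟩ := hJ'.exists_left_inv
  obtain ⟨N', hN'⟩ := hJ'.exists_right_inv
  have hNN : J * N = 1 := by
    have : N = N' := by
      calc N = N * (J * N') := by rw [hN', mul_one]
        _ = (N * J) * N' := by rw [mul_assoc]
        _ = N' := by rw [hN, one_mul]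
    rw [this, hN']
  set r : ℝ := ‖fun i => eval a (F i)‖ with hr
  have hr0 : 0 ≤ r := norm_nonneg _
  have hp1 : (p : ℝ)⁻¹ < 1 := by
    have : (1 : ℝ) < p := by exact_mod_cast (Fact.out : p.Prime).one_lt
    exact inv_lt_one_of_one_lt₀ this
  have hp0 : (0 : ℝ) ≤ (p : ℝ)⁻¹ := by positivity
  have hr1 : r < 1 := (pi_norm_lt_iff one_pos).2 hF
  let Φ : (ι → ℤ_[p]) → (ι → ℤ_[p]) := fun x => x - N.mulVec fun i => eval x (F i)
  have hball : ∀ x : ι → ℤ_[p], x ∈ Metric.closedBall a r → ∀ i, ‖x i - a i‖ < 1 := by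
    intro x hx i
    rw [mem_closedBall_iff_norm] at hx
    exact (norm_le_pi_norm (x - a) i).trans_lt (hx.trans_lt hr1)
  have hcon : ∀ x y : ι → ℤ_[p], (∀ i, ‖x i - a i‖ < 1) → (∀ i, ‖y i - a i‖ < 1) →
      ‖Φ x - Φ y‖ ≤ (p : ℝ)⁻¹ * ‖x - y‖ := fun x y hx hy => norm_newton_le F a N hN x y hx hy
  have ha : ∀ i, ‖a i - a i‖ < 1 := fun i => by simp
  have hmaps : Set.MapsTo Φ (Metric.closedBall a r) (Metric.closedBall a r) := by
    intro x hx
    have hx' := hball x hx
    rw [mem_closedBall_iff_norm] at hx ⊢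
    have h1 : Φ x - a = (Φ x - Φ a) + (Φ a - a) := by abel
    rw [h1]
    refine (IsUltrametricDist.norm_add_le_max _ _).trans (max_le ?_ ?_)
    · refine (hcon x a hx' ha).trans ?_
      calc (p : ℝ)⁻¹ * ‖x - a‖ ≤ 1 * r := mul_le_mul hp1.le hx (norm_nonneg _) zero_le_one
        _ = r := one_mul r
    · have h2 : Φ a - a = - N.mulVec fun i => eval a (F i) := by
        simp only [Φ]
        abel
      rw [h2, norm_neg]
      exact norm_mulVec_le _ _
  have hK : ContractingWith (p : NNReal)⁻¹ (hmaps.restrict Φ _ _) := by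
    refine ⟨?_, ?_⟩
    · rw [← NNReal.coe_lt_coe]
      push_cast
      exact hp1
    · refine LipschitzWith.of_dist_le_mul fun x y => ?_
      rw [Subtype.dist_eq, Subtype.dist_eq, dist_eq_norm, dist_eq_norm]
      have := hcon x y (hball x x.2) (hball y y.2)
      push_cast
      exact this
  obtain ⟨b, hb, hfix, -, -⟩ := ContractingWith.exists_fixedPoint' (Metric.isClosed_closedBall.isComplete) hmaps hK
    (x := a) (Metric.mem_closedBall_self hr0) (edist_ne_top _ _)
  have hbz : ∀ i, eval b (F i) = 0 := by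
    have h1 : N.mulVec (fun i => eval b (F i)) = 0 := by
      have h2 : b - N.mulVec (fun i => eval b (F i)) = b := hfix
      exact sub_eq_self.1 h2
    have h3 : J.mulVec (N.mulVec fun i => eval b (F i)) = 0 := by rw [h1, Matrix.mulVec_zero]
    rw [Matrix.mulVec_mulVec, hNN, Matrix.one_mulVec] at h3
    exact fun i => congrFun h3 i
  refine ⟨b, hbz, hball b hb, fun i => ?_, fun b' hb' hba' => ?_⟩
  · rw [mem_closedBall_iff_norm] at hb
    exact (norm_le_pi_norm (b - a) i).trans hb
  · have h1 := hcon b' b hba' (hball b hb)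
    have h2 : ∀ x : ι → ℤ_[p], (∀ i, eval x (F i) = 0) → Φ x = x := by
      intro x hx
      have : (fun i => eval x (F i)) = 0 := funext hx
      simp only [Φ, this, Matrix.mulVec_zero, sub_zero]
    rw [h2 b' hb', h2 b hbz] at h1
    by_contra hne
    have h3 : 0 < ‖b' - b‖ := norm_pos_iff.2 (sub_ne_zero.2 hne)
    nlinarith

end Pool.Agent.Helper45.XN
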